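import Pool.Agent.W2helper90.RT.Stm

/-!
# Regularity of the components
-/

set_option autoImplicit false
set_option linter.unusedSectionVars false

open MeasureTheory Metric Set Filter Topology Measure
open scoped ENNReal

namespace Pool.Agent.W2helper92.RT

open Pool.Agent.W2helper90.RT
open LTd (pd)

section General

variable {A B : Type} [NormedAddCommGroup A] [NormedSpace ℝ A] [ProperSpace A]
  [NormedAddCommGroup B] [NormedSpace ℝ B]

/-- the partial derivative with respect to the first variable -/
noncomputable def dA (G : A × B → ℝ) (x : A) (w : B) : A →L[ℝ] ℝ :=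
  (fderiv ℝ G (x, w)).comp (ContinuousLinearMap.inl ℝ A B)

lemma dA_cont {G : A × B → ℝ} (hG : ContDiff ℝ 1 G) :
    Continuous fun p : A × B => dA G p.1 p.2 := by
  have h1 : Continuous (fderiv ℝ G) := hG.continuous_fderiv one_ne_zero
  exact h1.clm_comp continuous_const

lemma dA_deriv {G : A × B → ℝ} (hG : ContDiff ℝ 1 G) (x : A) (w : B) :
    HasFDerivAt (fun x => G (x, w)) (dA G x w) x := by
  have h1 : HasFDerivAt G (fderiv ℝ G (x, w)) (x, w) :=
    (hG.differentiable one_ne_zero _).hasFDerivAt
  exact h1.comp x (hasFDerivAt_prodMk_left x w)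

variable {Y : Type} [TopologicalSpace Y] [CompactSpace Y] [MeasurableSpace Y]
  [OpensMeasurableSpace Y] [SecondCountableTopology Y] {μ : Measure Y} [IsFiniteMeasure μ]

lemma int_cont {f : Y → ℝ} (hf : Continuous f) : Integrable f μ := by
  obtain ⟨C, hC⟩ := (isCompact_univ (X := Y)).exists_bound_of_continuousOn hf.continuousOn
  exact Integrable.of_bound hf.aestronglyMeasurable C
    (Eventually.of_forall fun y => hC y (mem_univ y))

lemma param_deriv {G : A × B → ℝ} (hG : ContDiff ℝ 1 G) {c : Y → B} (hc : Continuous c)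
    {e : Y → ℝ} (he : Continuous e) (x : A) :
    HasFDerivAt (fun x => ∫ y, e y * G (x, c y) ∂μ) (∫ y, e y • dA G x (c y) ∂μ) x := by
  have hF : ∀ x, Continuous fun y => e y * G (x, c y) := fun x =>
    he.mul (hG.continuous.comp (continuous_const.prodMk hc))
  have hF' : Continuous fun p : A × Y => e p.2 • dA G p.1 (c p.2) :=
    (he.comp continuous_snd).smul ((dA_cont hG).comp (continuous_fst.prodMk
      (hc.comp continuous_snd)))
  obtain ⟨C, hC⟩ := ((isCompact_closedBall x 1).prod (isCompact_univ (X := Y))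
    ).exists_bound_of_continuousOn hF'.continuousOn
  refine hasFDerivAt_integral_of_dominated_of_fderiv_le (F := fun x y => e y * G (x, c y))
    (F' := fun x y => e y • dA G x (c y)) (bound := fun _ => C) (s := closedBall x 1)
    (closedBall_mem_nhds x one_pos) (Eventually.of_forall fun z => (hF z).aestronglyMeasurable)
    (int_cont (hF x)) ?_ ?_ (integrable_const C) ?_
  · have h1 : Continuous fun y => e y • dA G x (c y) :=
      hF'.comp (continuous_const.prodMk continuous_id)
    exact h1.aestronglyMeasurable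
  · exact Eventually.of_forall fun y z hz => hC (z, y) ⟨hz, mem_univ y⟩
  · exact Eventually.of_forall fun y z _ => (dA_deriv hG z (c y)).const_mul (e y)

lemma param_contDiff {G : A × B → ℝ} (hG : ContDiff ℝ 1 G) {c : Y → B} (hc : Continuous c)
    {e : Y → ℝ} (he : Continuous e) :
    ContDiff ℝ 1 (fun x => ∫ y, e y * G (x, c y) ∂μ) := by
  have hF' : Continuous fun p : A × Y => e p.2 • dA G p.1 (c p.2) :=
    (he.comp continuous_snd).smul ((dA_cont hG).comp (continuous_fst.prodMk
      (hc.comp continuous_snd)))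
  rw [contDiff_one_iff_fderiv]
  refine ⟨fun x => (param_deriv hG hc he x).differentiableAt, ?_⟩
  have h1 : fderiv ℝ (fun x => ∫ y, e y * G (x, c y) ∂μ) =
      fun x => ∫ y in univ, e y • dA G x (c y) ∂μ := by
    funext x
    rw [(param_deriv hG hc he x).fderiv, Measure.restrict_univ]
  rw [h1]
  exact continuous_parametric_integral_of_continuous
    (f := fun x y => e y • dA G x (c y)) hF' isCompact_univ

lemma param_apply {G : A × B → ℝ} (hG : ContDiff ℝ 1 G) {c : Y → B} (hc : Continuous c)
    {e : Y → ℝ} (he : Continuous e) (x v : A) :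
    fderiv ℝ (fun x => ∫ y, e y * G (x, c y) ∂μ) x v =
      ∫ y, e y * fderiv ℝ G (x, c y) (v, 0) ∂μ := by
  have hF' : Continuous fun y : Y => e y • dA G x (c y) :=
    he.smul ((dA_cont hG).comp (continuous_const.prodMk hc))
  have hint : Integrable (fun y : Y => e y • dA G x (c y)) μ := by
    obtain ⟨C, hC⟩ := (isCompact_univ (X := Y)).exists_bound_of_continuousOn hF'.continuousOn
    exact Integrable.of_bound hF'.aestronglyMeasurable C
      (Eventually.of_forall fun y => hC y (mem_univ y))
  rw [(param_deriv hG hc he x).fderiv, ContinuousLinearMap.integral_apply hint]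
  refine integral_congr_ae (Eventually.of_forall fun y => ?_)
  simp [dA]

end General

/-- the function of `x` and `w` -/
noncomputable def Ps {k m : ℕ} (u : Z k m → ℝ) (p : X m × E k) : ℝ := UU u p.1 p.2

/-- the argument -/
noncomputable def ag {k m : ℕ} (p : X m × E k) : Z k m := (Real.exp (p.1 0) • p.2, tl p.1)

lemma tl_lin {m : ℕ} : ContDiff ℝ 1 (tl : X m → Fin m → ℝ) := by
  unfold tl
  fun_prop

lemma ag_cd {k m : ℕ} : ContDiff ℝ 1 (ag : X m × E k → Z k m) := by
  have h1 : ContDiff ℝ 1 (fun p : X m × E k => Real.exp (p.1 0)) := by fun_prop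
  have h2 : ContDiff ℝ 1 (fun p : X m × E k => p.2) := contDiff_snd
  have h3 : ContDiff ℝ 1 (fun p : X m × E k => tl p.1) :=
    tl_lin.comp (contDiff_fst : ContDiff ℝ 1 (fun p : X m × E k => p.1))
  exact (h1.smul h2).prodMk h3

lemma Ps_cd {k m : ℕ} {u : Z k m → ℝ} (hu : ContDiff ℝ 1 u) : ContDiff ℝ 1 (Ps u) := by
  have h1 : Ps u = fun p : X m × E k => Real.exp (al k * p.1 0) * u (ag p) := rfl
  rw [h1]
  refine ContDiff.mul ?_ (hu.comp ag_cd)
  fun_prop

lemma ag_deriv {k m : ℕ} (x v : X m) (w : E k) :
    fderiv ℝ (ag : X m × E k → Z k m) (x, w) (v, 0) =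
      ((v 0 * Real.exp (x 0)) • w, tl v) := by
  have h0 : HasFDerivAt (fun p : X m × E k => p.1 0)
      ((ContinuousLinearMap.proj (R := ℝ) (φ := fun _ : Fin (m + 1) => ℝ) 0).comp
        (ContinuousLinearMap.fst ℝ (X m) (E k))) (x, w) :=
    ((ContinuousLinearMap.proj (R := ℝ) (φ := fun _ : Fin (m + 1) => ℝ) 0).comp
        (ContinuousLinearMap.fst ℝ (X m) (E k))).hasFDerivAt
  have h1 := (h0.exp).smul (hasFDerivAt_snd (𝕜 := ℝ) (p := ((x, w) : X m × E k)))
  have h2 : HasFDerivAt (fun p : X m × E k => tl p.1)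
      ((ContinuousLinearMap.pi fun i : Fin m =>
        (ContinuousLinearMap.proj (R := ℝ) (φ := fun _ : Fin (m + 1) => ℝ) i.succ)).comp
        (ContinuousLinearMap.fst ℝ (X m) (E k))) (x, w) :=
    ((ContinuousLinearMap.pi fun i : Fin m =>
        (ContinuousLinearMap.proj (R := ℝ) (φ := fun _ : Fin (m + 1) => ℝ) i.succ)).comp
        (ContinuousLinearMap.fst ℝ (X m) (E k))).hasFDerivAt
  have h3 := h1.prodMk h2
  have h4 : fderiv ℝ (ag : X m × E k → Z k m) (x, w) = _ := h3.fderiv
  rw [h4]
  refine Prod.ext ?_ ?_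
  · simp [mul_comm]
  · funext i
    simp [tl]

lemma Ps_deriv {k m : ℕ} {u : Z k m → ℝ} (hu : ContDiff ℝ 1 u) (x v : X m) (w : E k) :
    fderiv ℝ (Ps u) (x, w) (v, 0) = v 0 * (al k * UU u x w) +
      Real.exp (al k * x 0) * fderiv ℝ u (ag (x, w)) ((v 0 * Real.exp (x 0)) • w, tl v) := by
  have h0 : HasFDerivAt (fun p : X m × E k => p.1 0)
      ((ContinuousLinearMap.proj (R := ℝ) (φ := fun _ : Fin (m + 1) => ℝ) 0).comp
        (ContinuousLinearMap.fst ℝ (X m) (E k))) (x, w) :=
    ((ContinuousLinearMap.proj (R := ℝ) (φ := fun _ : Fin (m + 1) => ℝ) 0).comp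
        (ContinuousLinearMap.fst ℝ (X m) (E k))).hasFDerivAt
  have h1 : HasFDerivAt (fun p : X m × E k => u (ag p))
      ((fderiv ℝ u (ag (x, w))).comp (fderiv ℝ ag (x, w))) (x, w) :=
    ((hu.differentiable one_ne_zero _).hasFDerivAt).comp (x, w)
      ((ag_cd.differentiable one_ne_zero _).hasFDerivAt)
  have h2 := ((h0.const_mul (al k)).exp).mul h1
  have h4 : fderiv ℝ (Ps u) (x, w) = _ := h2.fderiv
  rw [h4]
  simp only [_root_.add_apply, _root_.smul_apply,
    ContinuousLinearMap.comp_apply, ag_deriv, smul_eq_mul, ContinuousLinearMap.coe_fst',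
    ContinuousLinearMap.proj_apply]
  unfold UU
  change Real.exp (al k * x 0) * _ + u (Real.exp (x 0) • w, tl x) * _ = _
  ring

theorem t_PH : S_PH := by
  intro k m hk e u hu
  have hc : Continuous fun w : S k => (w : E k) := continuous_subtype_val
  have hph : ph e u = fun x => ∫ w : S k, e w * Ps u (x, (w : E k)) ∂(sm k) := rfl
  refine ⟨?_, ?_, ?_, ?_⟩
  · rw [hph]
    exact param_contDiff (Ps_cd hu.smooth) hc e.continuous
  · obtain ⟨ε, hε, hε'⟩ := hu.away
    obtain ⟨R, hR⟩ := hu.supp.isBounded.subset_closedBall 0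
    set R' := max (max |Real.log ε| |Real.log (|R| + 1)|) |R| with hR'
    refine HasCompactSupport.intro (isCompact_closedBall (0 : X m) R') ?_
    intro x hx
    rw [mem_closedBall_zero_iff, not_le] at hx
    have hz : ∀ w : S k, u (Real.exp (x 0) • (w : E k), tl x) = 0 := by
      intro w
      by_contra hne
      have hw : ‖(w : E k)‖ = 1 := mem_sphere_zero_iff_norm.1 w.2
      have h1 : ‖Real.exp (x 0) • (w : E k)‖ = Real.exp (x 0) := by
        rw [norm_smul, hw, mul_one, Real.norm_eq_abs, abs_of_pos (Real.exp_pos _)]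
      have h2 : ε ≤ Real.exp (x 0) := by
        by_contra hlt
        push Not at hlt
        exact hne (hε' _ (by rw [h1]; exact hlt))
      have h3 := hR (subset_tsupport u (Function.mem_support.2 hne))
      rw [mem_closedBall_zero_iff, Prod.norm_def, max_le_iff, h1] at h3
      have h4 : Real.log ε ≤ x 0 := by
        rw [← Real.log_exp (x 0)]
        exact Real.log_le_log hε h2
      have h5 : x 0 ≤ Real.log (|R| + 1) := by
        rw [← Real.log_exp (x 0)]
        refine Real.log_le_log (Real.exp_pos _) ?_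
        have := le_abs_self R
        linarith [h3.1]
      have h6 : ‖x‖ ≤ R' := by
        rw [pi_norm_le_iff_of_nonneg (by positivity)]
        intro i
        refine Fin.cases ?_ (fun j => ?_) i
        · rw [Real.norm_eq_abs, abs_le]
          constructor
          · have h7 : -|Real.log ε| ≤ Real.log ε := neg_abs_le _
            have h8 : |Real.log ε| ≤ R' := (le_max_left _ _).trans (le_max_left _ _)
            linarith
          · have h7 : Real.log (|R| + 1) ≤ |Real.log (|R| + 1)| := le_abs_self _
            have h8 : |Real.log (|R| + 1)| ≤ R' := (le_max_right _ _).trans (le_max_left _ _)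
            linarith
        · have h7 : ‖tl x j‖ ≤ ‖tl x‖ := norm_le_pi_norm _ _
          have h8 : |R| ≤ R' := le_max_right _ _
          have h9 : R ≤ |R| := le_abs_self R
          have h10 : ‖x j.succ‖ = ‖tl x j‖ := rfl
          rw [h10]
          linarith [h3.2]
      exact absurd h6 (not_le.2 hx)
    unfold ph UU
    simp only [hz, mul_zero, integral_zero]
  · intro x
    unfold pd
    rw [hph, param_apply (Ps_cd hu.smooth) hc e.continuous]
    refine integral_congr_ae (Eventually.of_forall fun w => ?_)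
    simp only
    rw [Ps_deriv hu.smooth, Pi.single_eq_same, one_mul, one_mul]
    have h1 : tl (Pi.single 0 1 : X m) = 0 := by
      funext i
      unfold tl
      rw [Pi.single_eq_of_ne (Fin.succ_ne_zero i)]
      rfl
    have h2 : ((Real.exp (x 0) • (w : E k), (0 : Fin m → ℝ)) : Z k m) =
        Real.exp (x 0) • ((w : E k), (0 : Fin m → ℝ)) := by
      rw [Prod.smul_mk, smul_zero]
    rw [h1, h2, map_smul, smul_eq_mul]
    unfold U0 ag
    rw [add_mul (al k) 1, one_mul, Real.exp_add]
    ring
  · intro j x
    unfold pd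
    rw [hph, param_apply (Ps_cd hu.smooth) hc e.continuous]
    refine integral_congr_ae (Eventually.of_forall fun w => ?_)
    simp only
    rw [Ps_deriv hu.smooth, Pi.single_eq_of_ne (Fin.succ_ne_zero j).symm, zero_mul, zero_mul,
      zero_smul, zero_add]
    have h1 : tl (Pi.single j.succ 1 : X m) = Pi.single j 1 := by
      funext i
      unfold tl
      by_cases h : i = j
      · subst h
        rw [Pi.single_eq_same, Pi.single_eq_same]
      · rw [Pi.single_eq_of_ne h, Pi.single_eq_of_ne (by simpa using h)]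
    rw [h1]
    rfl

end Pool.Agent.W2helper92.RT
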