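import Pool.Agent.W2helper90.RT.Stm

/-!
# Logarithmic polar coordinates
-/

set_option autoImplicit false

open MeasureTheory Metric Set Filter Topology Measure
open scoped ENNReal

namespace Pool.Agent.W2helper92.RT

open Pool.Agent.W2helper90.RT

/-- Polar coordinates (copy of `Pool.Agent.N303.SH.polar`). -/
lemma polar {n : ℕ} (hn : 0 < n) (f : E n → ℝ≥0∞) (hf : Measurable f) :
    ∫⁻ x, f x = ∫⁻ w : S n, (∫⁻ r in Ioi (0 : ℝ), ENNReal.ofReal (r ^ (n - 1)) * f (r • (w : E n)))
      ∂(sm n) := by
  have : Nonempty (Fin n) := ⟨⟨0, hn⟩⟩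
  have : Nontrivial (E n) := inferInstance
  have hfr : Module.finrank ℝ (E n) = n := by simp
  have h0 := (volume : Measure (E n)).measurePreserving_homeomorphUnitSphereProd
  rw [hfr] at h0
  calc ∫⁻ x, f x = ∫⁻ x in ({0}ᶜ : Set (E n)), f x := by
        rw [restrict_compl_singleton]
    _ = ∫⁻ x : ({(0 : E n)}ᶜ : Set (E n)), f x ∂((volume : Measure (E n)).comap (↑)) := by
        rw [lintegral_subtype_comap (measurableSet_singleton _).compl]
    _ = ∫⁻ p, f ((p.2 : ℝ) • (p.1 : E n))
          ∂((volume : Measure (E n)).toSphere.prod (volumeIoiPow (n - 1))) := by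
        rw [← h0.lintegral_comp_emb (Homeomorph.measurableEmbedding _)]
        apply lintegral_congr
        intro x
        congr 1
        have hx : ‖(x : E n)‖ ≠ 0 := norm_ne_zero_iff.2 x.2
        simp [smul_smul, hx]
    _ = ∫⁻ w, ∫⁻ r, f ((r : ℝ) • (w : E n)) ∂(volumeIoiPow (n - 1))
          ∂((volume : Measure (E n)).toSphere) := by
        rw [lintegral_prod]
        apply Measurable.aemeasurable
        exact hf.comp ((measurable_subtype_coe.comp measurable_snd).smul
          (measurable_subtype_coe.comp measurable_fst))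
    _ = ∫⁻ w, (∫⁻ r in Ioi (0 : ℝ), ENNReal.ofReal (r ^ (n - 1)) * f (r • (w : E n)))
          ∂((volume : Measure (E n)).toSphere) := by
        apply lintegral_congr
        intro w
        rw [volumeIoiPow, lintegral_withDensity_eq_lintegral_mul]
        · simp only [Pi.mul_apply]
          rw [lintegral_subtype_comap measurableSet_Ioi
            (fun r : ℝ => ENNReal.ofReal (r ^ (n - 1)) * f (r • (w : E n)))]
        · exact (measurable_subtype_coe.pow_const _).ennreal_ofReal
        · exact hf.comp (measurable_subtype_coe.smul measurable_const)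

/-- the substitution `r = exp t` -/
lemma exp_subst (g : ℝ → ℝ≥0∞) :
    ∫⁻ r in Ioi (0 : ℝ), g r = ∫⁻ t : ℝ, ENNReal.ofReal (Real.exp t) * g (Real.exp t) := by
  have h := lintegral_image_eq_lintegral_abs_deriv_mul (s := univ) (f := Real.exp)
    (f' := Real.exp) MeasurableSet.univ (fun x _ => (Real.hasDerivAt_exp x).hasDerivWithinAt)
    Real.exp_injective.injOn g
  rw [image_univ, Real.range_exp, Measure.restrict_univ] at h
  rw [h]
  refine lintegral_congr fun t => ?_
  rw [abs_of_pos (Real.exp_pos t)]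

lemma log_polar {n : ℕ} (hn : 1 ≤ n) (f : E n → ℝ≥0∞) (hf : Measurable f) :
    ∫⁻ x, f x = ∫⁻ t : ℝ, ENNReal.ofReal (Real.exp (n * t)) *
      ∫⁻ w : S n, f (Real.exp t • (w : E n)) ∂(sm n) := by
  rw [polar hn f hf]
  simp only [exp_subst]
  rw [lintegral_lintegral_swap]
  · refine lintegral_congr fun t => ?_
    rw [← lintegral_const_mul]
    · refine lintegral_congr fun w => ?_
      rw [← mul_assoc, ← ENNReal.ofReal_mul (Real.exp_pos t).le]
      congr 2
      obtain ⟨j, rfl⟩ : ∃ j, n = j + 1 := ⟨n - 1, by omega⟩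
      rw [Nat.add_sub_cancel, ← Real.exp_nat_mul, ← Real.exp_add]
      congr 1
      push_cast
      ring
    · exact hf.comp (measurable_subtype_coe.const_smul (Real.exp t))
  · apply Measurable.aemeasurable
    have h1 : Measurable fun p : S n × ℝ => Real.exp p.2 := Real.measurable_exp.comp measurable_snd
    refine h1.ennreal_ofReal.mul ((h1.pow_const _).ennreal_ofReal.mul (hf.comp ?_))
    exact h1.smul (measurable_subtype_coe.comp measurable_fst)

theorem t_POL : S_POL := by
  intro k m hk F hF
  have hE : Measurable fun p : (ℝ × (Fin m → ℝ)) => ENNReal.ofReal (Real.exp (k * p.1)) :=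
    (Real.measurable_exp.comp (measurable_fst.const_mul _)).ennreal_ofReal
  have hG : Measurable fun p : (ℝ × (Fin m → ℝ)) =>
      ∫⁻ w : S k, F (Real.exp p.1 • (w : E k), p.2) ∂(sm k) := by
    apply Measurable.lintegral_prod_right'
      (f := fun q : (ℝ × (Fin m → ℝ)) × S k => F (Real.exp q.1.1 • (q.2 : E k), q.1.2))
    apply hF.comp
    refine Measurable.prodMk ?_ (measurable_snd.comp measurable_fst)
    exact (Real.measurable_exp.comp (measurable_fst.comp measurable_fst)).smul
      (measurable_subtype_coe.comp measurable_snd)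
  have h1 : ∫⁻ z : Z k m, F z = ∫⁻ y : Fin m → ℝ, ∫⁻ v : E k, F (v, y) :=
    lintegral_prod_symm _ hF.aemeasurable
  rw [h1]
  have h2 : ∀ y : Fin m → ℝ, ∫⁻ v : E k, F (v, y) = ∫⁻ t : ℝ, ENNReal.ofReal (Real.exp (k * t)) *
      ∫⁻ w : S k, F (Real.exp t • (w : E k), y) ∂(sm k) := fun y =>
    log_polar hk (fun v => F (v, y)) (hF.comp (measurable_id.prodMk measurable_const))
  simp only [h2]
  have h3 := lintegral_prod_symm (μ := (volume : Measure ℝ)) (ν := (volume : Measure (Fin m → ℝ)))
    (fun p : (ℝ × (Fin m → ℝ)) => ENNReal.ofReal (Real.exp (k * p.1)) *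
      ∫⁻ w : S k, F (Real.exp p.1 • (w : E k), p.2) ∂(sm k)) (hE.mul hG).aemeasurable
  have h4 := (volume_preserving_piFinSuccAbove (fun _ : Fin (m + 1) => ℝ) 0).lintegral_comp
    (f := fun p : (ℝ × (Fin m → ℝ)) => ENNReal.ofReal (Real.exp (k * p.1)) *
      ∫⁻ w : S k, F (Real.exp p.1 • (w : E k), p.2) ∂(sm k)) (hE.mul hG)
  refine h3.symm.trans (h4.symm.trans ?_)
  refine lintegral_congr fun x => ?_
  rfl

end Pool.Agent.W2helper92.RT
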